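import Mathlib
import Pool.Agent.Y993.HP.Stm

/-!
Project HP (MP_f702fa_pr): averaging of labels, the inequality of Efron and Stein and negative
dependence.
-/

set_option autoImplicit false

namespace Pool.Agent.Y469.HP

open Finset Pool.Agent.Y993.HP

theorem Ex_mono {Ω : Type} [Fintype Ω] {F G : Ω → ℝ} (h : ∀ ω, F ω ≤ G ω) : Ex F ≤ Ex G := by
  rw [Ex, Ex]
  exact div_le_div_of_nonneg_right (sum_le_sum fun ω _ => h ω) (Nat.cast_nonneg _)

theorem Ex_nonneg {Ω : Type} [Fintype Ω] {F : Ω → ℝ} (h : ∀ ω, 0 ≤ F ω) : 0 ≤ Ex F :=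
  div_nonneg (sum_nonneg fun ω _ => h ω) (Nat.cast_nonneg _)

theorem Ex_const {Ω : Type} [Fintype Ω] [Nonempty Ω] (c : ℝ) : Ex (fun _ : Ω => c) = c := by
  rw [Ex, sum_const, card_univ, nsmul_eq_mul]
  have : (Fintype.card Ω : ℝ) ≠ 0 := by exact_mod_cast Fintype.card_ne_zero
  field_simp

theorem Ex_add {Ω : Type} [Fintype Ω] (F G : Ω → ℝ) :
    Ex (fun ω => F ω + G ω) = Ex F + Ex G := by
  rw [Ex, Ex, Ex, sum_add_distrib, add_div]

theorem Ex_sub {Ω : Type} [Fintype Ω] (F G : Ω → ℝ) :
    Ex (fun ω => F ω - G ω) = Ex F - Ex G := by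
  rw [Ex, Ex, Ex, sum_sub_distrib, sub_div]

theorem Ex_mul_left {Ω : Type} [Fintype Ω] (c : ℝ) (F : Ω → ℝ) :
    Ex (fun ω => c * F ω) = c * Ex F := by
  rw [Ex, Ex, ← mul_sum, mul_div_assoc]

theorem Ex_sum {Ω J : Type} [Fintype Ω] (s : Finset J) (F : J → Ω → ℝ) :
    Ex (fun ω => ∑ j ∈ s, F j ω) = ∑ j ∈ s, Ex (F j) := by
  simp only [Ex]
  rw [sum_comm, sum_div]

section av

variable {ι Λ : Type} [DecidableEq ι] [Fintype Λ]

/-- average over one coordinate -/
noncomputable def Av (x : ι) (F : (ι → Λ) → ℝ) (u : ι → Λ) : ℝ :=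
  (∑ a, F (Function.update u x a)) / (Fintype.card Λ : ℝ)

theorem Av_mono (x : ι) {F G : (ι → Λ) → ℝ} (h : ∀ u, F u ≤ G u) (u : ι → Λ) :
    Av x F u ≤ Av x G u :=
  div_le_div_of_nonneg_right (sum_le_sum fun _ _ => h _) (Nat.cast_nonneg _)

theorem Av_nonneg (x : ι) {F : (ι → Λ) → ℝ} (h : ∀ u, 0 ≤ F u) (u : ι → Λ) : 0 ≤ Av x F u :=
  div_nonneg (sum_nonneg fun _ _ => h _) (Nat.cast_nonneg _)

theorem Av_inv (x : ι) (F : (ι → Λ) → ℝ) (u : ι → Λ) (a : Λ) :
    Av x F (Function.update u x a) = Av x F u := by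
  simp only [Av, Function.update_idem]

theorem Av_inv' {x y : ι} (F : (ι → Λ) → ℝ) (h : ∀ u a, F (Function.update u y a) = F u)
    (u : ι → Λ) (a : Λ) : Av x F (Function.update u y a) = Av x F u := by
  by_cases hxy : x = y
  · subst hxy
    exact Av_inv x F u a
  · simp only [Av]
    congr 1
    refine sum_congr rfl fun b _ => ?_
    rw [Function.update_comm (Ne.symm hxy), h]

theorem Ex_Av [Fintype ι] [Nonempty Λ] (x : ι) (F : (ι → Λ) → ℝ) : Ex (Av x F) = Ex F := by
  have hm : (Fintype.card Λ : ℝ) ≠ 0 := by exact_mod_cast Fintype.card_ne_zero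
  rw [Ex, Ex]
  congr 1
  simp only [Av]
  rw [← sum_div, div_eq_iff hm]
  let e : (ι → Λ) × Λ ≃ (ι → Λ) × Λ :=
    { toFun := fun z => (Function.update z.1 x z.2, z.1 x)
      invFun := fun z => (Function.update z.1 x z.2, z.1 x)
      left_inv := fun z => by simp
      right_inv := fun z => by simp }
  have h1 : ∑ z : (ι → Λ) × Λ, F (e z).1 = ∑ z : (ι → Λ) × Λ, F z.1 :=
    Equiv.sum_comp e fun z => F z.1
  rw [Fintype.sum_prod_type, Fintype.sum_prod_type] at h1
  have h2 : ∑ u : ι → Λ, ∑ a : Λ, F (Function.update u x a) = ∑ u : ι → Λ, ∑ _a : Λ, F u := h1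
  rw [h2, sum_mul]
  refine sum_congr rfl fun u _ => ?_
  rw [sum_const, card_univ, nsmul_eq_mul, mul_comm]

/-- successive averages -/
noncomputable def AL : List ι → ((ι → Λ) → ℝ) → (ι → Λ) → ℝ
  | [], F => F
  | x :: L, F => Av x (AL L F)

theorem AL_mono (L : List ι) {F G : (ι → Λ) → ℝ} (h : ∀ u, F u ≤ G u) (u : ι → Λ) :
    AL L F u ≤ AL L G u := by
  induction L generalizing u with
  | nil => exact h u
  | cons x L ih => exact Av_mono x ih u

theorem AL_nonneg (L : List ι) {F : (ι → Λ) → ℝ} (h : ∀ u, 0 ≤ F u) (u : ι → Λ) :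
    0 ≤ AL L F u := by
  induction L generalizing u with
  | nil => exact h u
  | cons x L ih => exact Av_nonneg x ih u

theorem AL_inv' (L : List ι) {y : ι} (F : (ι → Λ) → ℝ)
    (h : ∀ u a, F (Function.update u y a) = F u) (u : ι → Λ) (a : Λ) :
    AL L F (Function.update u y a) = AL L F u := by
  induction L generalizing u a with
  | nil => exact h u a
  | cons x L ih => exact Av_inv' _ (fun u a => ih u a) u a

theorem AL_inv (L : List ι) {y : ι} (hy : y ∈ L) (F : (ι → Λ) → ℝ) (u : ι → Λ) (a : Λ) :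
    AL L F (Function.update u y a) = AL L F u := by
  induction L generalizing u a with
  | nil => simp at hy
  | cons x L ih =>
    rcases List.mem_cons.1 hy with h | h
    · subst h
      exact Av_inv y _ u a
    · exact Av_inv' _ (fun u a => ih h u a) u a

theorem Ex_AL [Fintype ι] [Nonempty Λ] (L : List ι) (F : (ι → Λ) → ℝ) : Ex (AL L F) = Ex F := by
  induction L with
  | nil => rfl
  | cons x L ih => exact (Ex_Av x _).trans ih

omit [Fintype Λ] in
/-- a function which depends on no coordinate is constant -/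
theorem const_of_inv [Fintype ι] (G : (ι → Λ) → ℝ)
    (h : ∀ u x a, G (Function.update u x a) = G u) (u v : ι → Λ) : G u = G v := by
  classical
  have key : ∀ s : Finset ι, G (fun x => if x ∈ s then v x else u x) = G u := by
    intro s
    induction s using Finset.induction_on with
    | empty => simp
    | insert y s hy ih =>
      rw [← ih, ← h (fun x => if x ∈ s then v x else u x) y (v y)]
      congr 1
      funext x
      by_cases hxy : x = y
      · subst hxy
        simp
      · rw [Function.update_of_ne hxy]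
        simp [hxy]
  have := key univ
  simp only [mem_univ, if_true] at this
  exact this.symm

theorem AL_const [Fintype ι] [Nonempty Λ] (L : List ι) (hL : ∀ x, x ∈ L) (F : (ι → Λ) → ℝ)
    (u : ι → Λ) : AL L F u = Ex F := by
  have h1 : AL L F = fun _ => AL L F u := by
    funext v
    exact const_of_inv _ (fun w x a => AL_inv L (hL x) F w a) v u
  have h2 : Ex (AL L F) = AL L F u := by
    rw [h1]
    exact Ex_const _
  rw [← h2, Ex_AL]

theorem Av_sub (x : ι) (F G : (ι → Λ) → ℝ) (u : ι → Λ) :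
    Av x (fun u => F u - G u) u = Av x F u - Av x G u := by
  simp only [Av]
  rw [sum_sub_distrib, sub_div]

theorem AL_sub (L : List ι) (F G : (ι → Λ) → ℝ) (u : ι → Λ) :
    AL L (fun u => F u - G u) u = AL L F u - AL L G u := by
  induction L generalizing u with
  | nil => rfl
  | cons x L ih =>
    have h1 : AL L (fun u => F u - G u) = fun u => AL L F u - AL L G u := funext ih
    show Av x (AL L fun u => F u - G u) u = _
    rw [h1]
    exact Av_sub x _ _ u

/-- the square of an average -/
theorem Av_sq_le [Nonempty Λ] (x : ι) (F : (ι → Λ) → ℝ) (u : ι → Λ) :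
    Av x F u ^ 2 ≤ Av x (fun u => F u ^ 2) u := by
  have hm : (0 : ℝ) < Fintype.card Λ := by exact_mod_cast Fintype.card_pos
  have h := sq_sum_le_card_mul_sum_sq (s := (univ : Finset Λ))
    (f := fun a => F (Function.update u x a))
  rw [card_univ] at h
  simp only [Av]
  rw [div_pow, div_le_div_iff₀ (by positivity) hm]
  nlinarith

/-- variance of one coordinate -/
theorem Av_var [Nonempty Λ] (x : ι) (W T : (ι → Λ) → ℝ)
    (hT : ∀ u a, T (Function.update u x a) = T u) (u : ι → Λ) :
    Av x (fun u => W u ^ 2) u - Av x W u ^ 2 ≤ Av x (fun u => (W u - T u) ^ 2) u := by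
  have hm : (Fintype.card Λ : ℝ) ≠ 0 := by exact_mod_cast Fintype.card_ne_zero
  have h1 : Av x (fun u => (W u - T u) ^ 2) u
      = Av x (fun u => W u ^ 2) u - 2 * T u * Av x W u + T u ^ 2 := by
    simp only [Av, hT]
    have : ∑ a, (W (Function.update u x a) - T u) ^ 2
        = ∑ a, W (Function.update u x a) ^ 2 - 2 * T u * ∑ a, W (Function.update u x a)
          + Fintype.card Λ * T u ^ 2 := by
      rw [mul_sum, ← sum_sub_distrib]
      have e : (Fintype.card Λ : ℝ) * T u ^ 2 = ∑ _a : Λ, T u ^ 2 := by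
        rw [sum_const, card_univ, nsmul_eq_mul]
      rw [e, ← sum_add_distrib]
      refine sum_congr rfl fun a _ => ?_
      ring
    rw [this]
    field_simp
  rw [h1]
  nlinarith [sq_nonneg (T u - Av x W u)]

end av

theorem Ex_AL_sq {ι Λ : Type} [Fintype ι] [DecidableEq ι] [Fintype Λ] [Nonempty Λ] (L : List ι)
    (F : (ι → Λ) → ℝ) : Ex (fun u => AL L F u ^ 2) ≤ Ex (fun u => F u ^ 2) := by
  induction L with
  | nil => exact le_rfl
  | cons x L ih =>
    refine le_trans ?_ ih
    have h1 : Ex (fun u => AL (x :: L) F u ^ 2) ≤ Ex (Av x fun u => AL L F u ^ 2) :=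
      Ex_mono fun u => Av_sq_le x _ u
    rwa [Ex_Av] at h1

theorem es : S_ES := by
  intro ι Λ _ _ _ _ Z Y hY
  have key : ∀ L : List ι, L.Nodup → Ex (fun u => Z u ^ 2) - Ex (fun u => AL L Z u ^ 2)
      ≤ (L.map fun x => Ex (fun u => (Z u - Y x u) ^ 2)).sum := by
    intro L hL
    induction L with
    | nil => simp [AL]
    | cons x L ih =>
      rw [List.map_cons, List.sum_cons]
      have h1 := ih (List.nodup_cons.1 hL).2
      have h2 : Ex (fun u => AL L Z u ^ 2) - Ex (fun u => AL (x :: L) Z u ^ 2)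
          ≤ Ex (fun u => (AL L Z u - AL L (Y x) u) ^ 2) := by
        have h3 : Ex (fun u => Av x (fun u => AL L Z u ^ 2) u - Av x (AL L Z) u ^ 2)
            ≤ Ex (Av x fun u => (AL L Z u - AL L (Y x) u) ^ 2) :=
          Ex_mono fun u => Av_var x _ _ (fun u a => AL_inv' L (Y x) (hY x) u a) u
        rw [Ex_sub, Ex_Av, Ex_Av] at h3
        exact h3
      have h5 : Ex (fun u => (AL L Z u - AL L (Y x) u) ^ 2) ≤ Ex (fun u => (Z u - Y x u) ^ 2) := by
        have h6 : (fun u => (AL L Z u - AL L (Y x) u) ^ 2)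
            = fun u => AL L (fun u => Z u - Y x u) u ^ 2 := by
          funext u
          rw [AL_sub]
        rw [h6]
        exact Ex_AL_sq L _
      linarith
  have h1 := key univ.toList (nodup_toList _)
  have h2 : Ex (fun u => AL univ.toList Z u ^ 2) = Ex Z ^ 2 := by
    have : (fun u => AL univ.toList Z u ^ 2) = fun _ => Ex Z ^ 2 := by
      funext u
      rw [AL_const _ (fun x => by simp)]
    rw [this, Ex_const]
  have h3 : (univ.toList.map fun x => Ex (fun u => (Z u - Y x u) ^ 2)).sum
      = ∑ x, Ex (fun u => (Z u - Y x u) ^ 2) := Finset.sum_map_toList _ _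
  have h4 : Ex (fun u => (Z u - Ex Z) ^ 2) = Ex (fun u => Z u ^ 2) - Ex Z ^ 2 := by
    have e : (fun u => (Z u - Ex Z) ^ 2) = fun u => (Z u ^ 2 - 2 * Ex Z * Z u) + Ex Z ^ 2 := by
      funext u
      ring
    rw [e, Ex_add, Ex_sub, Ex_mul_left, Ex_const]
    ring
  rw [h4, ← h3, ← h2]
  exact h1

/-! ### Negative dependence -/

/-- one label -/
theorem one_label {Λ : Type} [Fintype Λ] [DecidableEq Λ] [Nonempty Λ] (I I' : Finset Λ)
    (hd : Disjoint I I') (f p : Λ → ℝ) (hf : ∀ a b, a ∉ I → f a ≤ f b)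
    (hp : ∀ a b, a ∉ I' → p a ≤ p b) :
    (∑ a, f a * p a) / (Fintype.card Λ : ℝ)
      ≤ (∑ a, f a) / (Fintype.card Λ : ℝ) * ((∑ a, p a) / (Fintype.card Λ : ℝ)) := by
  have hm : (0 : ℝ) < Fintype.card Λ := by exact_mod_cast Fintype.card_pos
  have hav : Antivary f p := by
    intro i j hij
    have hj : j ∈ I' := by
      by_contra h
      exact absurd (hp j i h) (not_le.2 hij)
    have hj' : j ∉ I := fun h => (Finset.disjoint_left.1 hd h) hj
    exact hf j i hj'
  have h := hav.card_mul_sum_le_sum_mul_sum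
  rw [div_mul_div_comm, div_le_div_iff₀ hm (by positivity)]
  nlinarith

/-- the class of functions -/
def Cl {ι Λ : Type} [DecidableEq ι] (I : ι → Finset Λ) (F : (ι → Λ) → ℝ) : Prop :=
  ∀ u x a, u x ∉ I x → F u ≤ F (Function.update u x a)

theorem Cl_Av {ι Λ : Type} [DecidableEq ι] [Fintype Λ] {I : ι → Finset Λ} {F : (ι → Λ) → ℝ}
    (h : Cl I F) (y : ι) : Cl I (Av y F) := by
  intro u x a hx
  by_cases hxy : x = y
  · subst hxy
    rw [Av_inv]
  · refine div_le_div_of_nonneg_right (sum_le_sum fun b _ => ?_) (Nat.cast_nonneg _)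
    rw [Function.update_comm hxy]
    refine h _ x a ?_
    rwa [Function.update_of_ne hxy]

theorem Cl_AL {ι Λ : Type} [DecidableEq ι] [Fintype Λ] {I : ι → Finset Λ} {F : (ι → Λ) → ℝ}
    (h : Cl I F) (L : List ι) : Cl I (AL L F) := by
  induction L with
  | nil => exact h
  | cons x L ih => exact Cl_Av ih x

theorem two_fun {ι Λ : Type} [Fintype ι] [DecidableEq ι] [Fintype Λ] [DecidableEq Λ] [Nonempty Λ]
    (I I' : ι → Finset Λ) (hd : ∀ x, Disjoint (I x) (I' x)) (F P : (ι → Λ) → ℝ) (hF : Cl I F)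
    (hP : Cl I' P) : Ex (fun u => F u * P u) ≤ Ex F * Ex P := by
  have key : ∀ (L : List ι) u, AL L (fun u => F u * P u) u ≤ AL L F u * AL L P u := by
    intro L
    induction L with
    | nil => intro u; exact le_rfl
    | cons x L ih =>
      intro u
      have h1 : AL (x :: L) (fun u => F u * P u) u ≤ Av x (fun u => AL L F u * AL L P u) u :=
        Av_mono x ih u
      refine le_trans h1 ?_
      refine one_label (I x) (I' x) (hd x) (fun a => AL L F (Function.update u x a))
        (fun a => AL L P (Function.update u x a)) ?_ ?_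
      · intro a b ha
        have := Cl_AL hF L (Function.update u x a) x b (by rwa [Function.update_self])
        rwa [Function.update_idem] at this
      · intro a b ha
        have := Cl_AL hP L (Function.update u x a) x b (by rwa [Function.update_self])
        rwa [Function.update_idem] at this
  obtain ⟨u⟩ : Nonempty (ι → Λ) := inferInstance
  have h := key univ.toList u
  have hall : ∀ x : ι, x ∈ (univ : Finset ι).toList := fun x => by simp
  rwa [AL_const _ hall, AL_const _ hall, AL_const _ hall] at h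

theorem na : S_NA := by
  classical
  intro ι Λ J _ _ _ _ _ _ I F hd h0 hF
  have key : ∀ s : Finset J, Ex (fun u => ∏ j ∈ s, F j u) ≤ ∏ j ∈ s, Ex (F j) := by
    intro s
    induction s using Finset.induction_on with
    | empty =>
      simp only [prod_empty]
      rw [Ex_const]
    | insert j s hj ih =>
      simp only [prod_insert hj]
      have h1 := two_fun (I j) (fun x => s.biUnion fun j' => I j' x) (fun x => by
          rw [Finset.disjoint_biUnion_right]
          intro j' hj'
          exact hd x j j' (fun h => hj (h ▸ hj')))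
        (F j) (fun u => ∏ j ∈ s, F j u) (fun u x a hx => hF j u x a hx)
        (fun u x a hx => by
          refine prod_le_prod (fun j' _ => h0 j' u) fun j' hj' => ?_
          refine hF j' u x a fun h => hx ?_
          rw [mem_biUnion]
          exact ⟨j', hj', h⟩)
      exact le_trans h1 (mul_le_mul_of_nonneg_left ih (Ex_nonneg (h0 j)))
  exact key univ

end Pool.Agent.Y469.HP
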