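import Mathlib
import Pool.Agent.Y993.HP.Stm
import Pool.Agent.Y469.HP.Avg

/-!
Project HP (MP_f702fa_pr): variance of the longest chain in a box.
-/

set_option autoImplicit false

namespace Pool.Agent.Y469.HP

open Finset Pool.Agent.Y993.HP

theorem le_lg {d n N : ℕ} {u : Lab d n N} {X C : Finset (Pt d n)} (hC : C ⊆ X)
    (hch : IsCh u C) : C.card ≤ lg u X := by
  classical
  unfold lg
  exact Finset.le_sup (f := Finset.card) (mem_filter.2 ⟨mem_powerset.2 hC, hch⟩)

theorem exists_lg {d n N : ℕ} (u : Lab d n N) (X : Finset (Pt d n)) :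
    ∃ C ⊆ X, IsCh u C ∧ C.card = lg u X := by
  classical
  unfold lg
  obtain ⟨C, hC, h⟩ := Finset.exists_mem_eq_sup (X.powerset.filter fun C => IsCh u C)
    ⟨∅, mem_filter.2 ⟨mem_powerset.2 (empty_subset _), by intro p hp; simp at hp⟩⟩
    Finset.card
  have hC' := mem_filter.1 hC
  refine ⟨C, mem_powerset.1 hC'.1, hC'.2, ?_⟩
  rw [← h]

theorem IsCh_subset {d n N : ℕ} {u : Lab d n N} {C C' : Finset (Pt d n)} (h : IsCh u C)
    (hs : C' ⊆ C) : IsCh u C' := fun p hp q hq hpq => h p (hs hp) q (hs hq) hpq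

theorem lg_mono {d n N : ℕ} (u : Lab d n N) {X X' : Finset (Pt d n)} (h : X ⊆ X') :
    lg u X ≤ lg u X' := by
  obtain ⟨C, hC, hch, hc⟩ := exists_lg u X
  rw [← hc]
  exact le_lg (hC.trans h) hch

theorem lg_congr {d n N : ℕ} {u v : Lab d n N} {X : Finset (Pt d n)}
    (h : ∀ p ∈ X, ∀ i, u (i, p i) = v (i, p i)) : lg u X = lg v X := by
  have key : ∀ u v : Lab d n N, (∀ p ∈ X, ∀ i, u (i, p i) = v (i, p i)) → lg u X ≤ lg v X := by
    intro u v h
    obtain ⟨C, hC, hch, hc⟩ := exists_lg u X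
    rw [← hc]
    refine le_lg hC fun p hp q hq hpq => ?_
    rcases hch p hp q hq hpq with h1 | h1
    · refine Or.inl fun i => ?_
      rw [← h p (hC hp) i, ← h q (hC hq) i]
      exact h1 i
    · refine Or.inr fun i => ?_
      rw [← h p (hC hp) i, ← h q (hC hq) i]
      exact h1 i
  exact le_antisymm (key u v h) (key v u fun p hp i => (h p hp i).symm)

/-- the longest chain without the points of a hyperplane -/
noncomputable def Yx {d n N : ℕ} (A : Finset (Pt d n)) (I : Fin d → Finset (Fin N)) (L : ℕ)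
    (x : Fin d × Fin n) (u : Lab d n N) : ℕ :=
  min (lg u ((pts A I u).filter fun p => p x.1 ≠ x.2)) L

theorem mem_pts {d n N : ℕ} {A : Finset (Pt d n)} {I : Fin d → Finset (Fin N)} {u : Lab d n N}
    {p : Pt d n} : p ∈ pts A I u ↔ p ∈ A ∧ ∀ i, u (i, p i) ∈ I i := by
  unfold pts
  rw [mem_filter]

theorem Yx_inv {d n N : ℕ} (A : Finset (Pt d n)) (I : Fin d → Finset (Fin N)) (L : ℕ)
    (x : Fin d × Fin n) (u : Lab d n N) (a : Fin N) :
    Yx A I L x (Function.update u x a) = Yx A I L x u := by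
  have hup : ∀ p : Pt d n, p x.1 ≠ x.2 → ∀ i, Function.update u x a (i, p i) = u (i, p i) := by
    intro p hp i
    refine Function.update_of_ne ?_ _ _
    intro h
    apply hp
    rw [← h]
  have h1 : (pts A I (Function.update u x a)).filter (fun p => p x.1 ≠ x.2)
      = (pts A I u).filter (fun p => p x.1 ≠ x.2) := by
    ext p
    rw [mem_filter, mem_filter, mem_pts, mem_pts]
    constructor
    · rintro ⟨⟨h1, h2⟩, h3⟩
      exact ⟨⟨h1, fun i => by rw [← hup p h3 i]; exact h2 i⟩, h3⟩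
    · rintro ⟨⟨h1, h2⟩, h3⟩
      exact ⟨⟨h1, fun i => by rw [hup p h3 i]; exact h2 i⟩, h3⟩
  rw [Yx, Yx, h1]
  congr 1
  refine lg_congr fun p hp i => ?_
  exact hup p (mem_filter.1 hp).2 i

theorem var1 (h : S_ES) : S_VAR := by
  classical
  intro d n N L A I hN
  have : Nonempty (Fin N) := ⟨⟨0, hN⟩⟩
  have h1 := h (Fin d × Fin n) (Fin N) (fun u => (zz A I L u : ℝ))
    (fun x u => (Yx A I L x u : ℝ)) (fun x u a => by rw [Yx_inv])
  refine le_trans h1 ?_
  rw [← Ex_sum, ← Ex_mul_left]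
  refine Ex_mono fun u => ?_
  -- a chain of the right cardinality
  obtain ⟨C0, hC0, hch0, hc0⟩ := exists_lg u (pts A I u)
  obtain ⟨C, hCC0, hC⟩ := exists_subset_card_eq (s := C0) (n := zz A I L u)
    (by rw [hc0]; exact min_le_left _ _)
  have hch : IsCh u C := IsCh_subset hch0 hCC0
  have hCX : C ⊆ pts A I u := hCC0.trans hC0
  have hZL : zz A I L u ≤ L := min_le_right _ _
  have hYZ : ∀ x, Yx A I L x u ≤ zz A I L u := fun x =>
    min_le_min (lg_mono u (filter_subset _ _)) le_rfl
  -- the hit coordinates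
  set D : Finset (Fin d × Fin n) := ((univ : Finset (Fin d)) ×ˢ C).image fun z => (z.1, z.2 z.1)
    with hD
  have hDc : D.card ≤ d * zz A I L u := by
    rw [hD]
    refine le_trans card_image_le ?_
    rw [card_product, card_univ, Fintype.card_fin, hC]
  have hZY1 : ∀ x, zz A I L u ≤ Yx A I L x u + 1 := by
    intro x
    have h2 : (C.filter fun p => ¬ p x.1 ≠ x.2).card ≤ 1 := by
      rw [card_le_one]
      intro p hp q hq
      rw [mem_filter, not_not] at hp hq
      by_contra hpq
      rcases hch p hp.1 q hq.1 hpq with h3 | h3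
      · have := h3 x.1
        rw [hp.2, hq.2] at this
        exact lt_irrefl _ this
      · have := h3 x.1
        rw [hp.2, hq.2] at this
        exact lt_irrefl _ this
    have h3 := card_filter_add_card_filter_not (s := C) (fun p => p x.1 ≠ x.2)
    have h4 : (C.filter fun p => p x.1 ≠ x.2).card
        ≤ lg u ((pts A I u).filter fun p => p x.1 ≠ x.2) :=
      le_lg (filter_subset_filter _ hCX) (IsCh_subset hch (filter_subset _ _))
    rw [Yx]
    omega
  have hZY0 : ∀ x, x ∉ D → zz A I L u ≤ Yx A I L x u := by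
    intro x hx
    have h4 : C.card ≤ lg u ((pts A I u).filter fun p => p x.1 ≠ x.2) := by
      refine le_lg (fun p hp => ?_) hch
      rw [mem_filter]
      refine ⟨hCX hp, fun h5 => hx ?_⟩
      rw [hD, mem_image]
      refine ⟨(x.1, p), by rw [mem_product]; exact ⟨mem_univ _, hp⟩, ?_⟩
      show (x.1, p x.1) = x
      rw [h5]
    rw [Yx]
    omega
  have hterm : ∀ x, ((zz A I L u : ℝ) - (Yx A I L x u : ℝ)) ^ 2 ≤ if x ∈ D then (1 : ℝ) else 0 := by
    intro x
    have a1 : (Yx A I L x u : ℝ) ≤ zz A I L u := by exact_mod_cast hYZ x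
    have a2 : (zz A I L u : ℝ) ≤ Yx A I L x u + 1 := by exact_mod_cast hZY1 x
    split_ifs with hx
    · nlinarith
    · have a3 : (zz A I L u : ℝ) ≤ Yx A I L x u := by exact_mod_cast hZY0 x hx
      have : (zz A I L u : ℝ) - Yx A I L x u = 0 := by linarith
      rw [this]
      norm_num
  calc ∑ x, ((zz A I L u : ℝ) - (Yx A I L x u : ℝ)) ^ 2
      ≤ ∑ x, (if x ∈ D then (1 : ℝ) else 0) := sum_le_sum fun x _ => hterm x
    _ = (D.card : ℝ) := by
        rw [sum_boole]
        congr 2
        ext x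
        simp
    _ ≤ d * zz A I L u := by exact_mod_cast hDc

end Pool.Agent.Y469.HP
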